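import Pool.Agent.H899EX.Main

/-!
# `3^a = 2^b + 2^c + 2^d` is equivalent to a single congruence

In particular (`d = 0`) so is `3^a = 1 + 2^b + 2^c`.
-/

namespace Pool.Agent.Results.MP_b7b898_nt.PowersOfThree

open Pool.Agent.H899EX

/-- The modulus is `2^7 * 3^5 * 5 * 17 * 257`. -/
theorem result (a b c d : ℕ) :
    3 ^ a = 2 ^ b + 2 ^ c + 2 ^ d ↔ 3 ^ a ≡ 2 ^ b + 2 ^ c + 2 ^ d [MOD 679466880] :=
  Main_aux.modEq4_iff a b c d

end Pool.Agent.Results.MP_b7b898_nt.PowersOfThree
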