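import Pool.Agent.H899EX.Main

/-!
# A criterion for the reduction of purely exponential equations to a single congruence

`expSum p e x = ∑ i, e i * p i ^ x i`, `IsData p e` (the `p i` are primes, the `e i` are `±1`) and
`Reducible p e` (some `M ≥ 1` with `expSum p e x = 0 ↔ M ∣ expSum p e x` for all `x`) are defined
in `Pool.Agent.H899EX.Defs`.
-/

namespace Pool.Agent.Results.MP_b7b898_nt.SingleCongruence

open Pool.Agent.H899EX

/-- Finiteness of the solution set is necessary for every data. It is also sufficient, and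
equivalent to an explicit condition, if all primes are equal, or if there are at most three terms
and not three distinct primes one of which is `2`. -/
theorem result :
    (∀ (k : ℕ) (p : Fin k → ℕ) (e : Fin k → ℤ), IsData p e → Reducible p e →
      {x : Fin k → ℕ | expSum p e x = 0}.Finite) ∧
    (∀ (k : ℕ) (p : Fin k → ℕ) (e : Fin k → ℤ), 1 ≤ k → IsData p e →
      ((∀ i j, p i = p j) ∨ (k ≤ 3 ∧ ¬ (k = 3 ∧ (∃ i, p i = 2) ∧ Function.Injective p))) →
      (Reducible p e ↔ {x : Fin k → ℕ | expSum p e x = 0}.Finite) ∧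
      (Reducible p e ↔ ¬ ∃ q : ℕ, (∀ i, p i = q) ∧ (∃ i, e i = 1) ∧ (∃ i, e i = -1) ∧
        ((q : ℤ) - 1 ∣ ∑ i, e i))) :=
  ⟨fun _ _ _ hp h => Main_aux.finite_of_red hp h,
    fun _ _ _ hk hp h => Main_aux.criterion hk hp h⟩

end Pool.Agent.Results.MP_b7b898_nt.SingleCongruence
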